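import Pool.Agent.Helper84.QB.Acts

/-! Project QB, module D2: the one step lemma with a fresh domain. -/

set_option autoImplicit false

namespace Pool.Agent.Helper33.QB

open Set

universe v

variable {Ω : Type} {I : Type v}

/-- Retraction of the paths of a graph with new edges from a fresh set `X`. -/
theorem st2_core {G G' : I → Ω → Ω → Prop} (hPF : PF G) (τ : FreeGroup I) (f : Ω → Ω)
    {X K : Set Ω} (hf : ∀ x ∈ X, f x ∈ K)
    (h1 : ∀ x ∈ X, ∀ y ∈ K, ∀ g, ¬ Acts G g x y)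
    (h2 : ∀ x ∈ X, ∀ y ∈ X, ∀ g, Acts G g x y → g = 1)
    (hG' : ∀ l u v, G' l u v → G l u v ∨ (FreeGroup.of l = τ ∧ u ∈ X ∧ v = f u) ∨
      ((FreeGroup.of l)⁻¹ = τ ∧ v ∈ X ∧ u = f v)) :
    ∃ (c : Ω → FreeGroup I) (π : Ω → Ω), (∀ u ∈ K, c u = 1 ∧ π u = u) ∧
      (∀ u, (c u = 1 ∧ π u = u) ∨ ∃ x ∈ X, ∃ g, Acts G g u x ∧ c u = τ * g ∧ π u = f x) ∧
      ∀ g u v, Acts G' g u v → Acts G (c v * g * (c u)⁻¹) (π u) (π v) := by
  classical
  -- pendant points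
  let Pd : Ω → Prop := fun u => ∃ p : FreeGroup I × Ω, p.2 ∈ X ∧ Acts G p.1 u p.2
  let c : Ω → FreeGroup I := fun u => if h : Pd u then τ * h.choose.1 else 1
  let π : Ω → Ω := fun u => if h : Pd u then f h.choose.2 else u
  have huniq : ∀ u g g' x x', x ∈ X → x' ∈ X → Acts G g u x → Acts G g' u x' →
      g = g' ∧ x = x' := by
    intro u g g' x x' hx hx' ha ha'
    have h3 := (ha.inv).trans ha'
    have h4 := h2 x hx x' hx' _ h3
    have h5 : g = g' := (mul_inv_eq_one.1 h4).symm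
    subst h5
    exact ⟨rfl, Acts.unique hPF ha ha'⟩
  have hpd : ∀ u g x, x ∈ X → Acts G g u x → c u = τ * g ∧ π u = f x := by
    intro u g x hx ha
    have h : Pd u := ⟨(g, x), hx, ha⟩
    have h3 := h.choose_spec
    obtain ⟨h4, h5⟩ := huniq u _ _ _ _ h3.1 hx h3.2 ha
    simp only [c, π, dif_pos h]
    exact ⟨by rw [h4], by rw [h5]⟩
  have hnp : ∀ u, ¬ Pd u → c u = 1 ∧ π u = u := by
    intro u h
    simp only [c, π, dif_neg h, and_self]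
  have hK : ∀ u ∈ K, ¬ Pd u := by
    rintro u hu ⟨⟨g, x⟩, hx, ha⟩
    exact h1 x hx u hu _ ha.inv
  -- one edge of `G`
  have hE : ∀ l u v, G l u v → Acts G (c v * FreeGroup.of l * (c u)⁻¹) (π u) (π v) := by
    intro l u v huv
    by_cases h : Pd v
    · obtain ⟨⟨g, x⟩, hx, ha⟩ := h
      have ha' : Acts G (g * FreeGroup.of l) u x := (Acts.of huv).trans ha
      obtain ⟨e1, e2⟩ := hpd v g x hx ha
      obtain ⟨e3, e4⟩ := hpd u _ x hx ha'
      rw [e1, e2, e3, e4]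
      have : τ * g * FreeGroup.of l * (τ * (g * FreeGroup.of l))⁻¹ = 1 := by group
      rw [this]
      exact Acts.one _
    · have h' : ¬ Pd u := by
        rintro ⟨⟨g, x⟩, hx, ha⟩
        exact h ⟨(g * (FreeGroup.of l)⁻¹, x), hx, ((Acts.of huv).inv).trans ha⟩
      obtain ⟨e1, e2⟩ := hnp v h
      obtain ⟨e3, e4⟩ := hnp u h'
      rw [e1, e2, e3, e4, one_mul, inv_one, mul_one]
      exact Acts.of huv
  -- one edge of `G'`
  have hE' : ∀ l u v, G' l u v → Acts G (c v * FreeGroup.of l * (c u)⁻¹) (π u) (π v) := by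
    intro l u v huv
    rcases hG' l u v huv with h | ⟨h, hu, rfl⟩ | ⟨h, hv, rfl⟩
    · exact hE l u v h
    · obtain ⟨e1, e2⟩ := hnp (f u) (hK _ (hf u hu))
      obtain ⟨e3, e4⟩ := hpd u 1 u hu (Acts.one u)
      rw [e1, e2, e3, e4, h, one_mul, mul_one, mul_inv_cancel]
      exact Acts.one _
    · obtain ⟨e1, e2⟩ := hnp (f v) (hK _ (hf v hv))
      obtain ⟨e3, e4⟩ := hpd v 1 v hv (Acts.one v)
      rw [e1, e2, e3, e4, ← h, inv_one, mul_one, mul_one, inv_mul_cancel]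
      exact Acts.one _
  refine ⟨c, π, fun u hu => hnp u (hK u hu), fun u => ?_, ?_⟩
  · by_cases h : Pd u
    · right
      obtain ⟨⟨g, x⟩, hx, ha⟩ := h
      exact ⟨x, hx, g, ha, hpd u g x hx ha⟩
    · exact Or.inl (hnp u h)
  · intro g u v ha
    induction ha with
    | one x =>
      rw [mul_one, mul_inv_cancel]
      exact Acts.one _
    | @fwd g x y z i _ hyz ih =>
      have h3 := ih.trans (hE' i y z hyz)
      have : c z * FreeGroup.of i * (c y)⁻¹ * (c y * g * (c x)⁻¹) =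
          c z * (FreeGroup.of i * g) * (c x)⁻¹ := by group
      rwa [this] at h3
    | @bwd g x y z i _ hzy ih =>
      have h3 := ih.trans (hE' i z y hzy).inv
      have : (c y * FreeGroup.of i * (c z)⁻¹)⁻¹ * (c y * g * (c x)⁻¹) =
          c z * ((FreeGroup.of i)⁻¹ * g) * (c x)⁻¹ := by group
      rwa [this] at h3

/-- The conclusions of the one step lemma, apart from `PF`. -/
theorem st2_main {R : Set (Set Ω)} (hRu : ∀ K ∈ R, ∀ K' ∈ R, K ∪ K' ∈ R)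
    {G G' : I → Ω → Ω → Prop} (hPF : PF G) (hF : Free G) (hP : Proper R G) (τ : FreeGroup I)
    (f : Ω → Ω) {X KX K : Set Ω} (hK : K ∈ R) (hKX : KX ∈ R) (hX : X ⊆ KX)
    (hf : ∀ x ∈ X, f x ∈ K)
    (h1 : ∀ x ∈ X, ∀ y ∈ K, ∀ g, ¬ Acts G g x y)
    (h2 : ∀ x ∈ X, ∀ y ∈ X, ∀ g, Acts G g x y → g = 1)
    (hG' : ∀ l u v, G' l u v → G l u v ∨ (FreeGroup.of l = τ ∧ u ∈ X ∧ v = f u) ∨
      ((FreeGroup.of l)⁻¹ = τ ∧ v ∈ X ∧ u = f v)) :
    Free G' ∧ Proper R G' ∧ ∀ x ∈ K, ∀ y ∈ K, ∀ g, Acts G' g x y → Acts G g x y := by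
  obtain ⟨c, π, hcK, hc, hcl⟩ := st2_core hPF τ f hf h1 h2 hG'
  refine ⟨?_, ?_, ?_⟩
  · intro g x ha
    have h3 := hF _ _ (hcl g x x ha)
    have : g = (c x)⁻¹ * (c x * g * (c x)⁻¹) * c x := by group
    rw [this, h3]
    group
  · intro K' hK'
    have hD := hP (K' ∪ K) (hRu K' hK' K hK)
    have hC := hP (K' ∪ KX) (hRu K' hK' KX hKX)
    set D := {g | ∃ x ∈ K' ∪ K, ∃ y ∈ K' ∪ K, Acts G g x y} with hDdef
    set C := insert (1 : FreeGroup I) ((fun g => τ * g) ''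
      {g | ∃ x ∈ K' ∪ KX, ∃ y ∈ K' ∪ KX, Acts G g x y}) with hCdef
    have hCf : C.Finite := (hC.image _).insert _
    have hcC : ∀ u ∈ K', c u ∈ C := by
      intro u hu
      rcases hc u with ⟨h3, _⟩ | ⟨x, hx, g, ha, h3, _⟩
      · rw [h3]; exact mem_insert _ _
      · rw [h3]
        exact mem_insert_of_mem _ ⟨g, ⟨u, Or.inl hu, x, Or.inr (hX hx), ha⟩, rfl⟩
    have hπ : ∀ u ∈ K', π u ∈ K' ∪ K := by
      intro u hu
      rcases hc u with ⟨_, h3⟩ | ⟨x, hx, g, ha, _, h3⟩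
      · rw [h3]; exact Or.inl hu
      · rw [h3]; exact Or.inr (hf x hx)
    refine ((hCf.prod (hD.prod hCf)).image
      (fun p : FreeGroup I × FreeGroup I × FreeGroup I => p.1⁻¹ * p.2.1 * p.2.2)).subset ?_
    rintro g ⟨x, hx, y, hy, ha⟩
    refine ⟨(c y, c y * g * (c x)⁻¹, c x), ⟨hcC y hy, ?_, hcC x hx⟩, ?_⟩
    · exact ⟨π x, hπ x hx, π y, hπ y hy, hcl g x y ha⟩
    · simp only
      group
  · intro x hx y hy g ha
    have h3 := hcl g x y ha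
    rw [(hcK x hx).1, (hcK x hx).2, (hcK y hy).1, (hcK y hy).2, one_mul, inv_one, mul_one] at h3
    exact h3

/-- New edges `x → h x` (`x ∈ X`), the fresh side is the domain `X`. -/
theorem one_step' {R : Set (Set Ω)} (hRu : ∀ K ∈ R, ∀ K' ∈ R, K ∪ K' ∈ R)
    {G : I → Ω → Ω → Prop} (hPF : PF G) (hF : Free G) (hP : Proper R G) {i : I}
    {Z X KX K : Set Ω} (hK : K ∈ R) (hZ : Z ⊆ K) (hKX : KX ∈ R) (hX : X ⊆ KX)
    (h1 : ∀ x ∈ X, ∀ y ∈ K, ∀ g, ¬ Acts G g x y) (h2 : ∀ x ∈ X, ∀ y ∈ X, ∀ g, Acts G g x y → g = 1)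
    {h : Ω → Ω} (hh : BijOn h X Z) (hd : ∀ x ∈ X, ∀ y, ¬ G i x y) (hr : ∀ x ∈ Z, ∀ y, ¬ G i y x) :
    PF (addE G i X h) ∧ Free (addE G i X h) ∧ Proper R (addE G i X h) ∧
      ∀ x ∈ K, ∀ y ∈ K, ∀ g, Acts (addE G i X h) g x y → Acts G g x y := by
  refine ⟨⟨?_, ?_⟩, st2_main hRu hPF hF hP (FreeGroup.of i) h hK hKX hX
    (fun x hx => hZ (hh.mapsTo hx)) h1 h2 ?_⟩
  · rintro l x y z (h3 | ⟨rfl, hx, rfl⟩) (h4 | ⟨h4, hx', rfl⟩)
    · exact hPF.1 l x y z h3 h4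
    · exact absurd (h4 ▸ h3) (hd x hx' y)
    · exact absurd h4 (hd x hx z)
    · rfl
  · rintro l x y z (h3 | ⟨rfl, hx, hz⟩) (h4 | ⟨h4, hy, hz'⟩)
    · exact hPF.2 l x y z h3 h4
    · exact absurd (h4 ▸ h3) (hr z (hz' ▸ hh.mapsTo hy) x)
    · exact absurd h4 (hr z (hz ▸ hh.mapsTo hx) y)
    · exact hh.injOn hx hy (hz.symm.trans hz')
  · rintro l u v (h3 | ⟨rfl, hu, rfl⟩)
    · exact Or.inl h3
    · exact Or.inr (Or.inl ⟨rfl, hu, rfl⟩)

end Pool.Agent.Helper33.QB
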